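import Pool.Agent.E8helper16.TP.StmA
import Pool.Agent.H373R2.T7.Crt

/-! Pieces TP-2 (CRT2) and TP-3 (CNT2) of project TP (MP_a1f59e_nt): counting pairs in residue
classes. -/

set_option autoImplicit false

namespace Pool.Agent.E8helper14.TP

open Finset
open Pool.Agent.H373R2.T7 (count_class)
open Pool.Agent.E8helper16.TP

section crt

open Classical in
theorem crt2_aux (Q : ℕ → ℕ → ℕ → Prop) (S : Finset ℕ) (hS : ∀ p ∈ S, p.Prime) :
    ∀ q : ℕ, 1 ≤ q → (∀ p ∈ S, ¬ p ∣ q) → ∀ c d : ℕ,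
    ((range (q * ∏ p ∈ S, p) ×ˢ range (q * ∏ p ∈ S, p)).filter (fun r => r.1 ≡ c [MOD q] ∧
      r.2 ≡ d [MOD q] ∧ ∀ p ∈ S, Q p (r.1 % p) (r.2 % p))).card = ∏ p ∈ S, bad Q p := by
  induction S using Finset.induction_on with
  | empty =>
    intro q hq _ c d
    simp only [prod_empty, mul_one, notMem_empty, false_implies, implies_true, and_true]
    rw [card_eq_one]
    refine ⟨(c % q, d % q), ?_⟩
    ext ⟨x, y⟩
    rw [mem_filter, mem_product, mem_range, mem_range, mem_singleton, Prod.mk.injEq]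
    constructor
    · rintro ⟨⟨h1, h2⟩, h3, h4⟩
      unfold Nat.ModEq at h3 h4
      simp only at h1 h2 h3 h4
      rw [Nat.mod_eq_of_lt h1] at h3
      rw [Nat.mod_eq_of_lt h2] at h4
      exact ⟨h3, h4⟩
    · rintro ⟨rfl, rfl⟩
      exact ⟨⟨Nat.mod_lt _ (by omega), Nat.mod_lt _ (by omega)⟩, Nat.mod_modEq _ _,
        Nat.mod_modEq _ _⟩
  | insert p S hp ih =>
    intro q hq hdq c d
    have hpp := hS p (mem_insert_self _ _)
    have hS' : ∀ p' ∈ S, p'.Prime := fun p' h => hS p' (mem_insert_of_mem h)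
    have hpq : q.Coprime p := by
      rw [Nat.coprime_comm]
      exact (Nat.Prime.coprime_iff_not_dvd hpp).2 (hdq p (mem_insert_self _ _))
    rw [prod_insert hp, prod_insert hp]
    set ρ := (range p ×ˢ range p).filter (fun r => Q p r.1 r.2) with hρ
    have hbad : bad Q p = ρ.card := rfl
    rw [← mul_assoc, hbad]
    have hcr : ∀ (n a c : ℕ), a < p → (n ≡ (Nat.chineseRemainder hpq c a : ℕ) [MOD (q * p)] ↔
        n ≡ c [MOD q] ∧ n % p = a) := by
      intro n a c ha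
      have hmod : n ≡ a [MOD p] ↔ n % p = a := by
        unfold Nat.ModEq
        rw [Nat.mod_eq_of_lt ha]
      rw [← hmod]
      constructor
      · intro h
        have k1 := (Nat.chineseRemainder hpq c a).2.1
        have k2 := (Nat.chineseRemainder hpq c a).2.2
        exact ⟨(h.of_mul_right p).trans k1, (h.of_mul_left q).trans k2⟩
      · rintro ⟨h1, h2⟩
        exact Nat.chineseRemainder_modEq_unique hpq h1 h2
    have h1 : ((range (q * p * ∏ p' ∈ S, p') ×ˢ range (q * p * ∏ p' ∈ S, p')).filter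
        (fun r => r.1 ≡ c [MOD q] ∧ r.2 ≡ d [MOD q] ∧
          ∀ p' ∈ insert p S, Q p' (r.1 % p') (r.2 % p'))).card =
        ∑ a ∈ ρ, ((range (q * p * ∏ p' ∈ S, p') ×ˢ range (q * p * ∏ p' ∈ S, p')).filter
          (fun r => r.1 ≡ (Nat.chineseRemainder hpq c a.1 : ℕ) [MOD (q * p)] ∧
            r.2 ≡ (Nat.chineseRemainder hpq d a.2 : ℕ) [MOD (q * p)] ∧
          ∀ p' ∈ S, Q p' (r.1 % p') (r.2 % p'))).card := by
      rw [card_eq_sum_card_fiberwise (f := fun r : ℕ × ℕ => (r.1 % p, r.2 % p)) (t := ρ)]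
      · apply sum_congr rfl
        rintro ⟨a, b⟩ ha
        rw [hρ, mem_filter, mem_product, mem_range, mem_range] at ha
        congr 1
        ext ⟨x, y⟩
        simp only [mem_filter, mem_insert, forall_eq_or_imp, Prod.mk.injEq]
        rw [hcr x a c ha.1.1, hcr y b d ha.1.2]
        constructor
        · rintro ⟨⟨h1, h2, h3, h4, h5⟩, h6, h7⟩
          exact ⟨h1, ⟨h2, h6⟩, ⟨h3, h7⟩, h5⟩
        · rintro ⟨h1, ⟨h2, h6⟩, ⟨h3, h7⟩, h5⟩
          exact ⟨⟨h1, h2, h3, by rw [h6, h7]; exact ha.2, h5⟩, h6, h7⟩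
      · intro r hn
        simp only [coe_filter, mem_insert, forall_eq_or_imp, Set.mem_ofPred_eq] at hn
        rw [hρ]
        simp only [coe_filter, mem_product, mem_range, Set.mem_ofPred_eq]
        exact ⟨⟨Nat.mod_lt _ hpp.pos, Nat.mod_lt _ hpp.pos⟩, hn.2.2.2.1⟩
    rw [h1]
    have h3 : ∀ a ∈ ρ, ((range (q * p * ∏ p' ∈ S, p') ×ˢ range (q * p * ∏ p' ∈ S, p')).filter
          (fun r => r.1 ≡ (Nat.chineseRemainder hpq c a.1 : ℕ) [MOD (q * p)] ∧
            r.2 ≡ (Nat.chineseRemainder hpq d a.2 : ℕ) [MOD (q * p)] ∧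
          ∀ p' ∈ S, Q p' (r.1 % p') (r.2 % p'))).card = ∏ p' ∈ S, bad Q p' := by
      intro a _
      apply ih hS' (q * p) (Nat.mul_pos hq hpp.pos)
      intro p' hp' hd
      have hp'p := hS' p' hp'
      rcases (Nat.Prime.dvd_mul hp'p).1 hd with h | h
      · exact hdq p' (mem_insert_of_mem hp') h
      · rw [Nat.prime_dvd_prime_iff_eq hp'p hpp] at h
        exact hp (h ▸ hp')
    rw [sum_congr rfl h3, sum_const, smul_eq_mul]

open Classical in
theorem t_CRT2 : S_CRT2 := by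
  intro Q S hS
  have h := crt2_aux Q S hS 1 le_rfl (fun p hp hd => (hS p hp).one_lt.ne' (Nat.dvd_one.1 hd)) 0 0
  rw [one_mul] at h
  rw [← h]
  congr 1
  apply filter_congr
  intro n _
  simp [Nat.modEq_one]

end crt

open Classical in
/-- counting in a union of residue classes -/
theorem count_per (m : ℕ) (hm : 1 ≤ m) (G : ℕ → Prop) (hG : ∀ x, G x ↔ G (x % m)) (L : ℕ) :
    |(((Icc 1 L).filter G).card : ℝ) - (((range m).filter G).card : ℝ) * (L / m)| ≤
      (((range m).filter G).card : ℝ) := by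
  have h1 : ((Icc 1 L).filter G).card =
      ∑ a ∈ (range m).filter G, ((Icc 1 L).filter (fun n => n ≡ a [MOD m])).card := by
    rw [card_eq_sum_card_fiberwise (f := fun n => n % m) (t := (range m).filter G)]
    · apply sum_congr rfl
      intro a ha
      rw [mem_filter, mem_range] at ha
      congr 1
      ext n
      simp only [mem_filter]
      have hmod : n ≡ a [MOD m] ↔ n % m = a := by
        unfold Nat.ModEq
        rw [Nat.mod_eq_of_lt ha.1]
      rw [hmod]
      constructor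
      · rintro ⟨⟨h1, h2⟩, h3⟩
        exact ⟨h1, h3⟩
      · rintro ⟨h1, h3⟩
        exact ⟨⟨h1, by rw [hG, h3]; exact ha.2⟩, h3⟩
    · intro n hn
      simp only [coe_filter, mem_Icc, Set.mem_ofPred_eq] at hn
      simp only [coe_filter, mem_range, Set.mem_ofPred_eq]
      exact ⟨Nat.mod_lt _ (by omega), (hG n).1 hn.2⟩
  rw [h1]
  push_cast
  have h2 : (((range m).filter G).card : ℝ) * (L / m) = ∑ _a ∈ (range m).filter G, (L / m : ℝ) := by
    rw [sum_const, nsmul_eq_mul]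
  rw [h2, ← sum_sub_distrib]
  refine (abs_sum_le_sum_abs _ _).trans ?_
  refine (sum_le_sum fun a _ => count_class L m a hm).trans ?_
  rw [sum_const, nsmul_eq_mul, mul_one]

/-- the second order sum -/
theorem sum_second (m s : ℕ) (hm : 1 ≤ m) (Y : ℕ) :
    |∑ y ∈ (Icc 1 Y).filter (fun y => y ≡ s [MOD m]), ((Y : ℝ) - y) -
      (Y : ℝ) * (Y - 1) / (2 * m)| ≤ (Y : ℝ) := by
  have hm0 : (m : ℝ) ≠ 0 := by positivity
  induction Y with
  | zero => simp
  | succ Y ih =>
    have h1 : ∑ y ∈ (Icc 1 (Y + 1)).filter (fun y => y ≡ s [MOD m]), (((Y + 1 : ℕ) : ℝ) - y) =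
        ∑ y ∈ (Icc 1 Y).filter (fun y => y ≡ s [MOD m]), ((Y : ℝ) - y) +
          (((Icc 1 Y).filter (fun y => y ≡ s [MOD m])).card : ℝ) := by
      have e : Icc 1 (Y + 1) = insert (Y + 1) (Icc 1 Y) := by
        ext y
        simp only [mem_insert, mem_Icc]
        omega
      have h2 : (((Icc 1 Y).filter (fun y => y ≡ s [MOD m])).card : ℝ) =
          ∑ _y ∈ (Icc 1 Y).filter (fun y => y ≡ s [MOD m]), (1 : ℝ) := by
        rw [sum_const, nsmul_eq_mul, mul_one]
      rw [h2, ← sum_add_distrib, e, filter_insert]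
      split_ifs with h
      · rw [sum_insert (by simp)]
        push_cast
        rw [sub_self, zero_add]
        exact sum_congr rfl fun y _ => by ring
      · push_cast
        exact sum_congr rfl fun y _ => by ring
    rw [h1]
    have h2 := count_class Y m s hm
    have h3 : ∑ y ∈ (Icc 1 Y).filter (fun y => y ≡ s [MOD m]), ((Y : ℝ) - y) +
          (((Icc 1 Y).filter (fun y => y ≡ s [MOD m])).card : ℝ) -
        ((Y + 1 : ℕ) : ℝ) * (((Y + 1 : ℕ) : ℝ) - 1) / (2 * m) =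
        (∑ y ∈ (Icc 1 Y).filter (fun y => y ≡ s [MOD m]), ((Y : ℝ) - y) -
          (Y : ℝ) * (Y - 1) / (2 * m)) +
        ((((Icc 1 Y).filter (fun y => y ≡ s [MOD m])).card : ℝ) - Y / m) := by
      push_cast
      field_simp
      ring
    rw [h3]
    refine (abs_add_le _ _).trans ?_
    push_cast
    exact add_le_add ih h2

/-- the sum of `n - k y` over a residue class -/
theorem sum_class (m s k n : ℕ) (hm : 1 ≤ m) (hk : 1 ≤ k) :
    |∑ y ∈ (Icc 1 (n / k)).filter (fun y => y ≡ s [MOD m]), ((n : ℝ) - k * y) -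
      (n : ℝ) ^ 2 / (2 * k * m)| ≤ 2 * (n : ℝ) := by
  have hm0 : (0 : ℝ) < m := by positivity
  have hk0 : (0 : ℝ) < k := by positivity
  set Y := n / k with hY
  have hdiv := Nat.div_add_mod n k
  have hlt := Nat.mod_lt n (show 0 < k by omega)
  set t := n % k with ht
  rw [← hY] at hdiv
  have hn : (n : ℝ) = k * Y + t := by
    rw [← hdiv]; push_cast; ring
  have htk : (t : ℝ) ≤ k := by exact_mod_cast hlt.le
  have ht0 : (0 : ℝ) ≤ t := Nat.cast_nonneg _
  have hY0 : (0 : ℝ) ≤ Y := Nat.cast_nonneg _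
  have h1 : ∑ y ∈ (Icc 1 Y).filter (fun y => y ≡ s [MOD m]), ((n : ℝ) - k * y) =
      k * ∑ y ∈ (Icc 1 Y).filter (fun y => y ≡ s [MOD m]), ((Y : ℝ) - y) +
        t * (((Icc 1 Y).filter (fun y => y ≡ s [MOD m])).card : ℝ) := by
    have h2 : t * (((Icc 1 Y).filter (fun y => y ≡ s [MOD m])).card : ℝ) =
        ∑ _y ∈ (Icc 1 Y).filter (fun y => y ≡ s [MOD m]), (t : ℝ) := by
      rw [sum_const, nsmul_eq_mul]; ring
    rw [h2, mul_sum, ← sum_add_distrib]
    exact sum_congr rfl fun y _ => by rw [hn]; ring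
  rw [h1]
  have a1 := sum_second m s hm Y
  have a2 := count_class Y m s hm
  rw [abs_le] at a1 a2 ⊢
  set H := ∑ y ∈ (Icc 1 Y).filter (fun y => y ≡ s [MOD m]), ((Y : ℝ) - y)
  set c := (((Icc 1 Y).filter (fun y => y ≡ s [MOD m])).card : ℝ)
  -- the main term
  have h3 : (n : ℝ) ^ 2 / (2 * k * m) = k * ((Y : ℝ) * (Y - 1) / (2 * m)) + t * (Y / m) +
      (t ^ 2 / (2 * k) + k * Y / 2) / m := by
    rw [hn]
    field_simp
    ring
  have h4 : 0 ≤ (t ^ 2 / (2 * k) + k * Y / 2) / (m : ℝ) := by positivity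
  have h5 : (t ^ 2 / (2 * k) + k * Y / 2) / (m : ℝ) ≤ n := by
    rw [div_le_iff₀ hm0]
    have h6 : (t : ℝ) ^ 2 / (2 * k) ≤ t := by
      rw [div_le_iff₀ (by positivity)]
      nlinarith
    have h7 : (k : ℝ) * Y / 2 ≤ k * Y := by
      have : 0 ≤ (k : ℝ) * Y := by positivity
      linarith
    have h8 : (1 : ℝ) ≤ m := by exact_mod_cast hm
    have h9 : (0 : ℝ) ≤ n := Nat.cast_nonneg _
    nlinarith
  have b1 := mul_le_mul_of_nonneg_left a1.1 hk0.le
  have b2 := mul_le_mul_of_nonneg_left a1.2 hk0.le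
  have b3 := mul_le_mul_of_nonneg_left a2.1 ht0
  have b4 := mul_le_mul_of_nonneg_left a2.2 ht0
  rw [h3]
  constructor <;> nlinarith

/-- the conditions at the primes of `S` -/
def GG (Q : ℕ → ℕ → ℕ → Prop) (S : Finset ℕ) (x y : ℕ) : Prop := ∀ p ∈ S, Q p (x % p) (y % p)

open Classical in
/-- the number of classes of `x` for given `y` -/
noncomputable def AA (Q : ℕ → ℕ → ℕ → Prop) (S : Finset ℕ) (m y : ℕ) : ℕ :=
  ((range m).filter (fun x => GG Q S x y)).card

open Classical in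
theorem t_CNT2 : S_CNT2 := by
  intro Q S hS k n hk
  set m := ∏ p ∈ S, p with hmdef
  have hm : 1 ≤ m := Nat.one_le_iff_ne_zero.2 (prod_ne_zero_iff.2 fun p hp => (hS p hp).ne_zero)
  have hm0 : (0 : ℝ) < m := by exact_mod_cast hm
  have hk0 : (0 : ℝ) < k := by exact_mod_cast hk
  have hdvd : ∀ p ∈ S, p ∣ m := fun p hp => dvd_prod_of_mem _ hp
  have hGdef : ∀ x y, GG Q S x y ↔ ∀ p ∈ S, Q p (x % p) (y % p) := fun x y => Iff.rfl
  have hG1 : ∀ y x, GG Q S x y ↔ GG Q S (x % m) y := by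
    intro y x
    refine forall₂_congr fun p hp => ?_
    rw [Nat.mod_mod_of_dvd _ (hdvd p hp)]
  have hG2 : ∀ x y, GG Q S x y ↔ GG Q S x (y % m) := by
    intro x y
    refine forall₂_congr fun p hp => ?_
    rw [Nat.mod_mod_of_dvd _ (hdvd p hp)]
  -- the number of classes of `x` for given `y`
  have hAm : ∀ y, (AA Q S m y : ℝ) ≤ m := by
    intro y
    have := card_filter_le (range m) (fun x => GG Q S x y)
    rw [card_range] at this
    exact_mod_cast this
  have hAper : ∀ y, AA Q S m y = AA Q S m (y % m) := by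
    intro y
    unfold AA
    congr 1
    apply filter_congr
    intro x _
    exact hG2 x y
  have hAsum : ∑ s ∈ range m, AA Q S m s = ∏ p ∈ S, bad Q p := by
    rw [← t_CRT2 Q S hS]
    rw [card_eq_sum_card_fiberwise (f := Prod.snd) (t := range m)]
    · apply sum_congr rfl
      intro s hs
      refine card_bij (fun x _ => (x, s)) ?_ ?_ ?_
      · intro x hx
        rw [mem_filter] at hx
        simp only [mem_filter, mem_product]
        exact ⟨⟨⟨hx.1, hs⟩, hx.2⟩, trivial⟩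
      · intro a _ b _ h
        exact (Prod.mk.inj h).1
      · rintro ⟨x, y⟩ h
        simp only [mem_filter, mem_product] at h
        obtain ⟨⟨⟨h1, h2⟩, h3⟩, h4⟩ := h
        subst h4
        exact ⟨x, by rw [mem_filter]; exact ⟨h1, h3⟩, rfl⟩
    · intro r hr
      simp only [coe_filter, mem_product, Set.mem_ofPred_eq] at hr
      exact hr.1.2
  -- the count
  set Y := n / k with hY
  have hYn : Y ≤ n := Nat.div_le_self _ _
  have hkY : ∀ y ∈ Icc 1 Y, k * y ≤ n := by
    intro y hy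
    have h1 := (mem_Icc.1 hy).2
    calc k * y ≤ k * Y := Nat.mul_le_mul_left _ h1
      _ ≤ n := Nat.mul_div_le _ _
  have hcount : ((Icc 1 n ×ˢ Icc 1 n).filter (fun r : ℕ × ℕ => r.1 + k * r.2 ≤ n ∧
      ∀ p ∈ S, Q p (r.1 % p) (r.2 % p))).card =
      ∑ y ∈ Icc 1 Y, ((Icc 1 (n - k * y)).filter (fun x => GG Q S x y)).card := by
    rw [card_eq_sum_card_fiberwise (f := Prod.snd) (t := Icc 1 Y)]
    · apply sum_congr rfl
      intro y hy
      symm
      refine card_bij (fun x _ => (x, y)) ?_ ?_ ?_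
      · intro x hx
        rw [mem_filter, mem_Icc] at hx
        have := hkY y hy
        have h5 := mem_Icc.1 hy
        simp only [mem_filter, mem_product, mem_Icc]
        exact ⟨⟨⟨⟨hx.1.1, by omega⟩, h5.1, by omega⟩, by omega, hx.2⟩, trivial⟩
      · intro a _ b _ h
        exact (Prod.mk.inj h).1
      · rintro ⟨x, z⟩ h
        simp only [mem_filter, mem_product, mem_Icc] at h
        obtain ⟨⟨⟨⟨h1, h2⟩, h3⟩, h4, h6⟩, h7⟩ := h
        subst h7
        exact ⟨x, by rw [mem_filter, mem_Icc]; exact ⟨⟨h1, by omega⟩, h6⟩, rfl⟩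
    · rintro ⟨x, y⟩ hr
      simp only [coe_filter, mem_product, mem_Icc, Set.mem_ofPred_eq] at hr
      simp only [coe_Icc, Set.mem_Icc]
      refine ⟨hr.1.2.1, ?_⟩
      rw [hY, Nat.le_div_iff_mul_le (by omega), mul_comm]
      omega
  rw [hcount]
  push_cast
  -- first step
  have hst1 : |∑ y ∈ Icc 1 Y, (((Icc 1 (n - k * y)).filter (fun x => GG Q S x y)).card : ℝ) -
      ∑ y ∈ Icc 1 Y, (AA Q S m y : ℝ) * (((n : ℝ) - k * y) / m)| ≤ (n : ℝ) * m := by
    rw [← sum_sub_distrib]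
    refine (abs_sum_le_sum_abs _ _).trans ?_
    have h1 : ∀ y ∈ Icc 1 Y, |(((Icc 1 (n - k * y)).filter (fun x => GG Q S x y)).card : ℝ) -
        (AA Q S m y : ℝ) * (((n : ℝ) - k * y) / m)| ≤ (m : ℝ) := by
      intro y hy
      have h2 := count_per m hm (fun x => GG Q S x y) (hG1 y) (n - k * y)
      rw [Nat.cast_sub (hkY y hy)] at h2
      push_cast at h2
      exact h2.trans (hAm y)
    refine (sum_le_sum h1).trans ?_
    rw [sum_const, nsmul_eq_mul, Nat.card_Icc]
    have : ((Y + 1 - 1 : ℕ) : ℝ) ≤ n := by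
      rw [Nat.add_sub_cancel]; exact_mod_cast hYn
    exact mul_le_mul_of_nonneg_right this hm0.le
  -- second step
  have hfib : ∑ y ∈ Icc 1 Y, (AA Q S m y : ℝ) * (((n : ℝ) - k * y) / m) =
      ∑ s ∈ range m, (AA Q S m s : ℝ) / m *
        ∑ y ∈ (Icc 1 Y).filter (fun y => y ≡ s [MOD m]), ((n : ℝ) - k * y) := by
    rw [← sum_fiberwise_of_maps_to (g := fun y => y % m) (t := range m)
      (fun y _ => mem_range.2 (Nat.mod_lt _ (by omega)))]
    apply sum_congr rfl
    intro s hs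
    rw [mul_sum]
    have e : (Icc 1 Y).filter (fun y => y % m = s) =
        (Icc 1 Y).filter (fun y => y ≡ s [MOD m]) := by
      apply filter_congr
      intro y _
      unfold Nat.ModEq
      rw [Nat.mod_eq_of_lt (mem_range.1 hs)]
    rw [e]
    apply sum_congr rfl
    intro y hy
    rw [mem_filter] at hy
    have h1 : AA Q S m y = AA Q S m s := by
      rw [hAper y]
      congr 1
      have := hy.2
      unfold Nat.ModEq at this
      rwa [Nat.mod_eq_of_lt (mem_range.1 hs)] at this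
    rw [h1]
    ring
  have hprod : ∏ p ∈ S, ((bad Q p : ℝ) / (p : ℝ) ^ 2) = (∑ s ∈ range m, (AA Q S m s : ℝ)) / m ^ 2 := by
    rw [prod_div_distrib, prod_pow]
    have h1 : (∏ p ∈ S, (p : ℝ)) = m := by rw [hmdef]; push_cast; rfl
    have h2 : ∏ p ∈ S, (bad Q p : ℝ) = ∑ s ∈ range m, (AA Q S m s : ℝ) := by
      have := congrArg (fun t : ℕ => (t : ℝ)) hAsum
      push_cast at this
      exact this.symm
    rw [h1, h2]
  have hst2 : |∑ y ∈ Icc 1 Y, (AA Q S m y : ℝ) * (((n : ℝ) - k * y) / m) -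
      (n : ℝ) ^ 2 / (2 * k) * ∏ p ∈ S, ((bad Q p : ℝ) / (p : ℝ) ^ 2)| ≤ 2 * (n : ℝ) * m := by
    have h1 : (n : ℝ) ^ 2 / (2 * k) * ∏ p ∈ S, ((bad Q p : ℝ) / (p : ℝ) ^ 2) =
        ∑ s ∈ range m, (AA Q S m s : ℝ) / m * ((n : ℝ) ^ 2 / (2 * k * m)) := by
      rw [hprod, ← sum_mul, ← sum_div]
      have key : ∀ T M : ℝ, 0 < M → (n : ℝ) ^ 2 / (2 * k) * (T / M ^ 2) =
          T / M * ((n : ℝ) ^ 2 / (2 * k * M)) := by
        intro T M hM
        field_simp
      exact key _ _ hm0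
    rw [hfib, h1, ← sum_sub_distrib]
    refine (abs_sum_le_sum_abs _ _).trans ?_
    have h2 : ∀ s ∈ range m, |(AA Q S m s : ℝ) / m *
        ∑ y ∈ (Icc 1 Y).filter (fun y => y ≡ s [MOD m]), ((n : ℝ) - k * y) -
          (AA Q S m s : ℝ) / m * ((n : ℝ) ^ 2 / (2 * k * m))| ≤ 2 * (n : ℝ) := by
      intro s _
      rw [← mul_sub, abs_mul]
      have h3 : |(AA Q S m s : ℝ) / m| ≤ 1 := by
        rw [abs_of_nonneg (by positivity), div_le_one hm0]
        exact hAm s
      have h4 := sum_class m s k n hm hk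
      calc |(AA Q S m s : ℝ) / m| * |∑ y ∈ (Icc 1 Y).filter (fun y => y ≡ s [MOD m]),
            ((n : ℝ) - k * y) - (n : ℝ) ^ 2 / (2 * k * m)| ≤ 1 * (2 * n) :=
            mul_le_mul h3 h4 (abs_nonneg _) zero_le_one
        _ = 2 * n := one_mul _
    refine (sum_le_sum h2).trans ?_
    rw [sum_const, nsmul_eq_mul, card_range]
    linarith
  have h1 := abs_add_le (∑ y ∈ Icc 1 Y, (((Icc 1 (n - k * y)).filter (fun x => GG Q S x y)).card : ℝ) -
      ∑ y ∈ Icc 1 Y, (AA Q S m y : ℝ) * (((n : ℝ) - k * y) / m))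
    (∑ y ∈ Icc 1 Y, (AA Q S m y : ℝ) * (((n : ℝ) - k * y) / m) -
      (n : ℝ) ^ 2 / (2 * k) * ∏ p ∈ S, ((bad Q p : ℝ) / (p : ℝ) ^ 2))
  rw [sub_add_sub_cancel] at h1
  have h2 : (∏ p ∈ S, (p : ℝ)) = m := by rw [hmdef]; push_cast; rfl
  linarith

end Pool.Agent.E8helper14.TP
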